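import Pool.Agent.helper36.HK.Spec

/-!
# MP_ad8ced_nt, row fi:TFO
-/

set_option autoImplicit false

namespace Pool.Agent.HK

open Finset Pool.Agent.FI

/-- The inequality `3 + 4 cos + cos 2 ≥ 0` for the logarithms. -/
theorem TFO_comb {a : ℝ} (ha₀ : 0 ≤ a) (ha₁ : a < 1) {z : ℂ} (hz : ‖z‖ = 1) :
    0 ≤ 3 * (-Complex.log (1 - a)).re + 4 * (-Complex.log (1 - a * z)).re +
      (-Complex.log (1 - a * z ^ 2)).re := by
  have hac₀ : ‖(a : ℂ)‖ < 1 := by
    simp only [Complex.norm_of_nonneg ha₀, ha₁]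
  have hac₁ : ‖a * z‖ < 1 := by rwa [norm_mul, hz, mul_one]
  have hac₂ : ‖a * z ^ 2‖ < 1 := by rwa [norm_mul, norm_pow, hz, one_pow, mul_one]
  rw [← ((Complex.hasSum_re <| Complex.hasSum_taylorSeries_neg_log hac₀).mul_left 3).add
    ((Complex.hasSum_re <| Complex.hasSum_taylorSeries_neg_log hac₁).mul_left 4) |>.add
    (Complex.hasSum_re <| Complex.hasSum_taylorSeries_neg_log hac₂) |>.tsum_eq]
  refine tsum_nonneg fun n ↦ ?_
  simp only [← Complex.ofReal_pow, Complex.div_natCast_re, Complex.ofReal_re, mul_pow,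
    Complex.mul_re, Complex.ofReal_im, zero_mul, sub_zero]
  rcases n.eq_zero_or_pos with rfl | hn
  · simp
  · simp only [← mul_div_assoc, ← add_div]
    refine div_nonneg ?_ n.cast_nonneg
    rw [← pow_mul, pow_mul', sq, Complex.mul_re, ← sq, ← sq, ← Complex.sq_norm_sub_sq_re, norm_pow, hz]
    refine le_of_le_of_eq (show 0 ≤ 2 * a ^ n * ((z ^ n).re + 1) ^ 2 by positivity) ?_
    ring

theorem TFO_pair {w : ℂ} (hw : ‖w‖ < 1) :
    (-Complex.log (1 - 1 * w)).re + (-Complex.log (1 - (-1) * w)).re =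
      (-Complex.log (1 - w ^ 2)).re := by
  have h1 : (1 - 1 * w) ≠ 0 := by
    intro h
    have h2 : w = 1 := by linear_combination (-1 : ℂ) * h
    rw [h2, norm_one] at hw
    exact lt_irrefl _ hw
  have h2 : (1 - (-1) * w) ≠ 0 := by
    intro h
    have h2 : w = -1 := by linear_combination h
    rw [h2, norm_neg, norm_one] at hw
    exact lt_irrefl _ hw
  rw [Complex.neg_re, Complex.neg_re, Complex.neg_re, Complex.log_re, Complex.log_re, Complex.log_re,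
    show (1 - w ^ 2 : ℂ) = (1 - 1 * w) * (1 - (-1) * w) by ring, norm_mul,
    Real.log_mul (norm_ne_zero_iff.2 h1) (norm_ne_zero_iff.2 h2)]
  ring

theorem TFO_term {g : ℕ → ℂ} (hg : CM g) (s : ℂ) :
    LSeries.term g s = fun n : ℕ => g n * (n : ℂ) ^ (-s) := by
  funext n
  rcases eq_or_ne n 0 with h | h
  · subst h
    rw [LSeries.term_zero, hg.1, zero_mul]
  · rw [LSeries.term_of_ne_zero h, Complex.cpow_neg, div_eq_mul_inv]

theorem TFO_sum {g : ℕ → ℂ} (hg : CM g) {s : ℂ} (hs : 1 < s.re) : LSeriesSummable g s :=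
  LSeriesSummable_of_bounded_of_one_lt_re (m := 1) (fun n _ => hg.2.2.2 n) hs

/-- The completely multiplicative function `g(n) n^(-s)`. -/
noncomputable def TFO_hom (g : ℕ → ℂ) (hg : CM g) (s : ℂ) : ℕ →*₀ ℂ where
  toFun n := g n * (n : ℂ) ^ (-s)
  map_zero' := by rw [hg.1, zero_mul]
  map_one' := by rw [hg.2.1, Nat.cast_one, Complex.one_cpow, mul_one]
  map_mul' m n := by
    rw [hg.2.2.1, Nat.cast_mul, Complex.natCast_mul_natCast_cpow]
    ring

theorem TFO_exp {g : ℕ → ℂ} (hg : CM g) {s : ℂ} (hs : 1 < s.re) :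
    (Summable fun p : Nat.Primes => -Complex.log (1 - g p * (p : ℂ) ^ (-s))) ∧
    LSeries g s = Complex.exp (∑' p : Nat.Primes, -Complex.log (1 - g p * (p : ℂ) ^ (-s))) := by
  have h1 : Summable (LSeries.term g s) := TFO_sum hg hs
  have h2 : Summable fun n => ‖TFO_hom g hg s n‖ := by
    have h3 := h1.norm
    rw [TFO_term hg s] at h3
    exact h3
  refine ⟨h2.of_norm.clog_one_sub.neg.subtype Nat.Prime, ?_⟩
  have h3 := EulerProduct.exp_tsum_primes_log_eq_tsum h2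
  have h4 : LSeries g s = ∑' n : ℕ, TFO_hom g hg s n := by
    unfold LSeries
    rw [TFO_term hg s]
    rfl
  rw [h4, ← h3]
  rfl

theorem TFO_DF {g h : ℕ → ℂ} (hg : CM g) (hh : CM h) {s : ℂ} (hs : 1 < s.re) :
    DF (cv g h) 0 s = LSeries g s * LSeries h s := by
  have e : (fun n => cv g h n * (Real.log n : ℂ) ^ 0) = LSeries.convolution g h := by
    funext n
    rw [pow_zero, mul_one, LSeries.convolution_def]
    rfl
  unfold DF
  rw [e]
  exact LSeries_convolution' (TFO_sum hg hs) (TFO_sum hh hs)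

/-- The norm of the Dirichlet series. -/
theorem TFO_norm {g h : ℕ → ℂ} (hg : CM g) (hh : CM h) {s : ℂ} (hs : 1 < s.re) :
    ∃ S : ℝ, HasSum (fun p : Nat.Primes => (-Complex.log (1 - g p * (p : ℂ) ^ (-s))).re +
      (-Complex.log (1 - h p * (p : ℂ) ^ (-s))).re) S ∧ ‖DF (cv g h) 0 s‖ = Real.exp S := by
  obtain ⟨h1, h2⟩ := TFO_exp hg hs
  obtain ⟨h3, h4⟩ := TFO_exp hh hs
  refine ⟨_, (Complex.hasSum_re h1.hasSum).add (Complex.hasSum_re h3.hasSum), ?_⟩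
  rw [TFO_DF hg hh hs, h2, h4, norm_mul, Complex.norm_exp, Complex.norm_exp, Real.exp_add]

theorem TFO : TFO_stmt := by
  intro k₁ k₂ g₁ g₂ h₁ h₂ hk₁ hk₂ hg₁ hg₂ hh₁ hh₂ hT x t hx
  have r0 : 1 < (1 + (x : ℂ)).re := by simp [hx]
  have r1 : 1 < (1 + (x : ℂ) + Complex.I * t).re := by simp [hx]
  have r2 : 1 < (1 + (x : ℂ) + 2 * Complex.I * t).re := by simp [hx]
  obtain ⟨S0, s0, n0⟩ := TFO_norm hk₁ hk₂ r0
  obtain ⟨S1, s1, n1⟩ := TFO_norm hg₁ hg₂ r1
  obtain ⟨S2, s2, n2⟩ := TFO_norm hh₁ hh₂ r2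
  rw [n0, n1, n2, ← Real.exp_nat_mul, ← Real.exp_nat_mul, ← Real.exp_add, ← Real.exp_add]
  rw [Real.one_le_exp_iff]
  have hs := ((s0.mul_left 3).add (s1.mul_left 4)).add s2
  have hpos : 0 ≤ 3 * S0 + 4 * S1 + S2 := by
    refine hs.nonneg fun p => ?_
    have hp2 : 2 ≤ (p : ℕ) := p.2.two_le
    have hp0 : (0 : ℝ) < (p : ℕ) := by exact_mod_cast p.2.pos
    have hpc : ((p : ℕ) : ℂ) ≠ 0 := by exact_mod_cast p.2.ne_zero
    set a : ℝ := ((p : ℕ) : ℝ) ^ (-(1 + x)) with ha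
    set z : ℂ := ((p : ℕ) : ℂ) ^ (-(Complex.I * t)) with hz
    have ha0 : 0 ≤ a := Real.rpow_nonneg hp0.le _
    have ha1 : a < 1 := by
      rw [ha, Real.rpow_neg hp0.le, inv_lt_one_iff₀]
      right
      exact Real.one_lt_rpow (by exact_mod_cast p.2.one_lt) (by linarith)
    have hz1 : ‖z‖ = 1 := by
      rw [hz, Complex.norm_natCast_cpow_of_pos p.2.pos]
      simp
    have c0 : ((p : ℕ) : ℂ) ^ (-(1 + (x : ℂ))) = (a : ℂ) := by
      rw [ha, Complex.ofReal_cpow hp0.le]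
      push_cast
      rfl
    have c1 : ((p : ℕ) : ℂ) ^ (-(1 + (x : ℂ) + Complex.I * t)) = a * z := by
      rw [neg_add, Complex.cpow_add _ _ hpc, c0]
    have c2 : ((p : ℕ) : ℂ) ^ (-(1 + (x : ℂ) + 2 * Complex.I * t)) = a * z ^ 2 := by
      rw [neg_add, Complex.cpow_add _ _ hpc, c0, hz, ← Complex.cpow_nat_mul]
      refine congrArg (fun w => (a : ℂ) * ((p : ℕ) : ℂ) ^ w) ?_
      push_cast
      ring
    rw [c0, c1, c2]
    have hna : ‖(a : ℂ)‖ < 1 := by rwa [Complex.norm_of_nonneg ha0]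
    have hnz : ‖(a : ℂ) * z‖ < 1 := by rwa [norm_mul, hz1, mul_one]
    have hnz2 : ‖(a : ℂ) * z ^ 2‖ < 1 := by rwa [norm_mul, norm_pow, hz1, one_pow, mul_one]
    rcases hT p p.2 with ⟨e1, e2, e3, e4, e5, e6⟩ | ⟨e1, e2, e3, e4, e5, e6⟩ | ⟨e1, e2, e3, e4, e5, e6⟩
    · rw [e1, e2, e5, e6]
      have q1 := TFO_comb ha0 ha1 (z := g₁ p * z) (by rw [norm_mul, e3, hz1, mul_one])
      have q2 := TFO_comb ha0 ha1 (z := g₂ p * z) (by rw [norm_mul, e4, hz1, mul_one])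
      have u1 : g₁ p * ((a : ℂ) * z) = (a : ℂ) * (g₁ p * z) := by ring
      have u2 : g₂ p * ((a : ℂ) * z) = (a : ℂ) * (g₂ p * z) := by ring
      have u3 : g₁ p ^ 2 * ((a : ℂ) * z ^ 2) = (a : ℂ) * (g₁ p * z) ^ 2 := by ring
      have u4 : g₂ p ^ 2 * ((a : ℂ) * z ^ 2) = (a : ℂ) * (g₂ p * z) ^ 2 := by ring
      rw [one_mul, u1, u2, u3, u4]
      linarith
    · rw [e1, e2, e3, e4, e5, e6, TFO_pair hna, TFO_pair hnz, TFO_pair hnz2]
      have q1 := TFO_comb (a := a ^ 2) (by positivity) (by nlinarith) (z := z ^ 2)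
        (by rw [norm_pow, hz1, one_pow])
      have u1 : ((a : ℂ) * z) ^ 2 = ((a ^ 2 : ℝ) : ℂ) * z ^ 2 := by
        push_cast
        ring
      have u2 : ((a : ℂ) * z ^ 2) ^ 2 = ((a ^ 2 : ℝ) : ℂ) * (z ^ 2) ^ 2 := by
        push_cast
        ring
      have u3 : (a : ℂ) ^ 2 = ((a ^ 2 : ℝ) : ℂ) := by push_cast; rfl
      rw [u1, u2, u3]
      exact q1
    · rw [e1, e2, e3, e4, e5, e6]
      simp
  exact_mod_cast hpos

end Pool.Agent.HK
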