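import Pool.Agent.helper36.HK.Spec

/-!
# MP_ad8ced_nt, row fi:RSQ
-/

set_option autoImplicit false

namespace Pool.Agent.HK

open Finset Pool.Agent.FI

theorem RSQ_cop {z : ℤ × ℤ} {d : ℕ} (h : IsCoprime (N8 z) (d : ℤ)) : Nat.Coprime (nn z) d :=
  Int.isCoprime_iff_gcd_eq_one.1 h

/-- The sign change: `2 + 2 c X` is prime to `d` for some `c` with `c² = 1`. -/
theorem RSQ_c (d : ℕ) (hodd : Odd d) (hsq : Squarefree d) (X : ℤ) :
    ∃ c k : ℤ, c * c + k * d = 1 ∧ IsCoprime (2 + 2 * (c * X)) (d : ℤ) := by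
  set d1 : ℕ := Int.gcd (2 + 2 * X) (d : ℤ) with hd1
  have h1 : d1 ∣ d := by
    have : ((d1 : ℕ) : ℤ) ∣ (d : ℤ) := Int.gcd_dvd_right _ _
    exact Int.natCast_dvd_natCast.1 this
  have h1A : ((d1 : ℕ) : ℤ) ∣ 2 + 2 * X := Int.gcd_dvd_left _ _
  obtain ⟨d2, hd2⟩ := h1
  have hc : Nat.Coprime d1 d2 := by
    have h2 : Squarefree (d1 * d2) := by rw [← hd2]; exact hsq
    exact (Nat.squarefree_mul_iff.1 h2).1
  obtain ⟨u, v, huv⟩ := Nat.isCoprime_iff_coprime.2 hc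
  have hdz : (d : ℤ) = d1 * d2 := by exact_mod_cast hd2
  refine ⟨u * d1 - v * d2, 4 * u * v, ?_, ?_⟩
  · rw [hdz]
    linear_combination (u * (d1 : ℤ) + v * d2 + 1) * huv
  · rw [Int.isCoprime_iff_gcd_eq_one]
    by_contra hcon
    obtain ⟨p, hp, hpa, hpd⟩ := Nat.Prime.not_coprime_iff_dvd.1 hcon
    have hpa' : (p : ℤ) ∣ 2 + 2 * ((u * d1 - v * d2) * X) := Int.natCast_dvd.2 hpa
    have hpd' : p ∣ d := hpd
    have hpd3 : p ∣ d1 * d2 := by rw [← hd2]; exact hpd'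
    rcases hp.dvd_mul.1 hpd3 with h2 | h2
    · have h3 : (p : ℤ) ∣ (d1 : ℤ) := Int.natCast_dvd_natCast.2 h2
      have h4 : (p : ℤ) ∣ 4 := by
        have e : (4 : ℤ) = (2 + 2 * ((u * d1 - v * d2) * X)) + (2 + 2 * X) - (d1 : ℤ) * (4 * u * X) := by
          linear_combination (2 * X) * huv
        rw [e]
        exact dvd_sub (dvd_add hpa' (h3.trans h1A)) (Dvd.dvd.mul_right h3 _)
      have h5 : p ∣ 4 := by exact_mod_cast h4
      have h6 : p ∣ 2 := by
        have : p ∣ 2 ^ 2 := by simpa using h5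
        exact hp.dvd_of_dvd_pow this
      have h7 : p = 2 := (Nat.prime_dvd_prime_iff_eq hp Nat.prime_two).1 h6
      rw [h7] at hpd'
      exact absurd hpd' (by
        intro h
        rcases hodd with ⟨m, hm⟩
        omega)
    · have h3 : (p : ℤ) ∣ (d2 : ℤ) := Int.natCast_dvd_natCast.2 h2
      have h4 : (p : ℤ) ∣ 2 + 2 * X := by
        have e : (2 + 2 * X : ℤ) = (2 + 2 * ((u * d1 - v * d2) * X)) + (d2 : ℤ) * (4 * v * X) := by
          linear_combination (-(2 * X)) * huv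
        rw [e]
        exact dvd_add hpa' (Dvd.dvd.mul_right h3 _)
      have h5 : (p : ℤ) ∣ ((Int.gcd (2 + 2 * X) (d : ℤ) : ℕ) : ℤ) :=
        Int.dvd_coe_gcd h4 (Int.natCast_dvd_natCast.2 hpd')
      have h6 : p ∣ d1 := Int.natCast_dvd_natCast.1 h5
      have h7 : p ∣ Nat.gcd d1 d2 := Nat.dvd_gcd h6 h2
      rw [hc] at h7
      exact hp.one_lt.ne' (Nat.dvd_one.1 h7)

theorem RSQ : RSQ_stmt := by
  intro d hodd hsq ψ hψ hreal z t ht hz
  obtain ⟨hmul, hper, -, -, hrat⟩ := hψ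
  obtain ⟨t', s, hts⟩ := ht
  have ht' : IsCoprime t' (d : ℤ) := ⟨t, s, by rw [mul_comm t t']; exact hts⟩
  obtain ⟨c, k, hck, hcop⟩ := RSQ_c d hodd hsq (t' * z.1)
  have hc' : IsCoprime c (d : ℤ) := ⟨c, k, hck⟩
  set a : ℤ := c * (t' * z.1) with ha
  set b : ℤ := c * (t' * z.2) with hb
  -- `ψ η = ψ z`
  have e1 : mul8 (t', 0) z = (t' * z.1, t' * z.2) := by
    unfold mul8
    ext <;> simp
  have e2 : mul8 (c, 0) (t' * z.1, t' * z.2) = (a, b) := by
    unfold mul8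
    ext <;> simp [ha, hb]
  have h1 : ψ (a, b) = ψ z := by
    rw [← e2, hmul, hrat c hc', one_mul, ← e1, hmul, hrat t' ht', one_mul]
  -- the norm
  obtain ⟨m, hm⟩ := hz
  have hN : (d : ℤ) ∣ a ^ 2 - 8 * b ^ 2 - 1 := by
    have e3 : a ^ 2 - 8 * b ^ 2 = (c * c) * ((t' * t') * N8 z) := by
      rw [ha, hb]
      unfold N8
      ring
    have e4 : N8 z = t ^ 2 + d * m := by linarith
    have e5 : c * c = 1 - k * d := by linarith
    have e6 : t' * t = 1 - s * d := by linarith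
    rw [e3, e5, e4]
    refine ⟨(t' * t') * m - k * ((t' * t') * (t ^ 2 + d * m)) - s * (1 + t' * t), ?_⟩
    linear_combination (t' * t + 1) * e6
  obtain ⟨r, hr⟩ := hN
  -- the square
  have e7 : mul8 (1 + a, b) (1 + a, b) = ((1 + a) ^ 2 + 8 * b ^ 2, 2 * (1 + a) * b) := by
    unfold mul8
    ext
    · simp only []
      ring
    · simp only []
      ring
  have e8 : mul8 (2 + 2 * a, 0) (a, b) = ((2 + 2 * a) * a, (2 + 2 * a) * b) := by
    unfold mul8
    ext <;> simp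
  have h2 : ψ (mul8 (1 + a, b) (1 + a, b)) = ψ (mul8 (2 + 2 * a, 0) (a, b)) := by
    rw [e7, e8]
    refine hper _ _ ⟨-r, ?_⟩ ⟨0, ?_⟩
    · show (1 + a) ^ 2 + 8 * b ^ 2 - (2 + 2 * a) * a = d * -r
      linear_combination (-1 : ℤ) * hr
    · show 2 * (1 + a) * b - (2 + 2 * a) * b = d * 0
      ring
  rw [hmul, hmul, hrat _ hcop, one_mul] at h2
  have h3 : Nat.Coprime (nn (1 + a, b)) d := by
    refine RSQ_cop ?_
    have e9 : N8 (1 + a, b) = (2 + 2 * a) + (d : ℤ) * r := by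
      unfold N8
      simp only []
      linear_combination hr
    rw [e9]
    exact (IsCoprime.add_mul_left_left_iff).2 hcop
  have h4 := hreal _ h3
  rw [sq, h2, h1] at h4
  exact h4

end Pool.Agent.HK
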